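import Pool.Agent.K3h11.Nar.Final

/-!
# The narrow numerical index of real `L_p(μ)` is `M_p`, and it differs from the numerical index

`numRadius`, `numIndex` (the numerical radius of an operator, the numerical index of a normed space)
are defined in `Pool/Agent/Y772/NI/Base.lean` and `bigM` (the number `M_p`) in
`Pool/Agent/Y772/NI/Crit.lean`, exactly as in the problem; `Atomless`, `IsNarrow` and `narrowIndex`
in `Pool/Agent/K3h11/Nar/Defs.lean`.

Outline of the proof.

*Lower bound `M_p ‖T‖ ≤ v(T)` for narrow `T`.*  Write `s* = |s|^(p-2) s` and let `τ > 0` with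
`m = (τ - τ^(p-1)) / (1 + τ^p) ≥ 0` (`M_p` is the largest value of `m`).  Since `T` nearly kills
suitable signs on every set, `v(T)` bounds `⟨ψ, T φ⟩` whenever, pointwise, `φ` is the mean and `ψ`
the mean of the stars of a random variable `Z`, the cost being `∫ E|Z|^p`.  On a finite partition
choose `x, y` with `T x = β y`, `T' y* = β x*` (maximise the bilinear form).  Use two such
functions: `Z` with mean `x`, and `Z'` with star mean `y*`.  At a point where
`-1/τ ≤ y/x ≤ τ` take `Z = x`, `Z' ∈ {τ x, -x/τ}`; at the other points take
`Z ∈ {y/τ, -τ y}`, `Z' = y`.  In both cases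
`y E Z* + x* E Z' = m (E|Z|^p + E|Z'|^p) + (x* y + x y*)`, so that `β m ≤ v(T)` if
`∫ (x* y + x y*) ≥ 0`; otherwise replace `T`, `y` by `-T`, `-y`.

*Upper bound.*  The rotation of the averages over two halves of `Ω` is narrow, has norm one, and its
numerical radius is at most `M_p`.

*The index of `L_p(μ)`.*  By the starting library there is an operator of norm one on the real space
`ℓ_p^3` with numerical radius smaller than `M_p`, if `p ≠ 2`.  Letting its off-diagonal part act
through averages over three sets of equal measure and its diagonal part by multiplication gives an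
operator on `L_p(μ)` whose numerical radius is not larger (the three variables are independent)
and whose norm is not smaller.
-/

set_option autoImplicit false

open MeasureTheory
open scoped ENNReal

namespace Pool.Agent.Results.MP_119d8d_an.NarrowIndexLarger

open Pool.Agent.K3h11.Nar Pool.Agent.Y772.NI

/-- **Real scalars.**  For every atomless finite nonzero measure `μ` and every `1 < p < ∞` the
narrow numerical index of `L_p(μ)` is `M_p`.  It is larger than the numerical index of `L_p(μ)` for
every `p ≠ 2`, and equal to it for `p = 2`.  Lebesgue measure on `[0,1]` is an example of such a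
measure. -/
theorem result :
    (∀ (Ω : Type) [MeasurableSpace Ω] (μ : Measure Ω) [IsFiniteMeasure μ], Atomless μ →
      0 < μ Set.univ → ∀ (p : ℝ≥0∞) [Fact (1 ≤ p)], 1 < p → p ≠ ∞ →
        narrowIndex p μ = bigM p.toReal ∧
        (p ≠ 2 → numIndex ℝ (Lp ℝ p μ) < narrowIndex p μ) ∧
        (p = 2 → numIndex ℝ (Lp ℝ p μ) = narrowIndex p μ)) ∧
    Atomless (volume.restrict (Set.Icc (0:ℝ) 1)) := by
  refine ⟨fun Ω _ μ _ hμ h0 p _ hp1 htop => ?_, atomless_unit⟩
  have h1 : 1 < p.toReal := by
    rw [← ENNReal.toReal_one]
    exact (ENNReal.toReal_lt_toReal ENNReal.one_ne_top htop).mpr hp1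
  have he := narrow_eq hμ h0.ne' h1 htop
  refine ⟨he, fun hp2 => ?_, fun hp2 => index_two_eq hμ h0.ne' hp2⟩
  rw [he]
  exact index_lt hμ h0.ne' hp1 htop hp2

end Pool.Agent.Results.MP_119d8d_an.NarrowIndexLarger
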